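import Mathlib

/-!
# Minimal denominators in the cells of length `1 / q`

If `G d = q + u v` with `0 < u, v < G ≤ d` and `2 d ≤ q`, then there is a cell `(x / q, (x + 1) / q]`, `1 ≤ x`, `x + 1 < q`,
which contains a fraction with denominator `d` and none with a smaller denominator.
-/

set_option autoImplicit false

namespace Pool.Agent.L5helper14.UnitL

/-- `d` is the least denominator in one of the cells `(x / q, (x + 1) / q]`, `1 ≤ x ≤ q - 2`. -/
def MinDen (q d : ℕ) : Prop :=
  ∃ x : ℕ, 1 ≤ x ∧ x + 1 < q ∧ (d * (x + 1)) / q = (d * x) / q + 1 ∧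
    ∀ a : ℕ, 0 < a → a < d → (a * (x + 1)) / q = (a * x) / q

/-- The determinant argument. -/
lemma cell_int (q G d u v t k y a s : ℤ) (hu : 0 < u) (huG : u < G) (hv : 0 < v) (hvG : v < G)
    (hud : u < d) (hvd : v ≤ d) (hG : G * d = q + u * v) (hd : 0 < d) (ht : t * v = 1 + k * d) (hy : t * q = y * d - u)
    (ha : 0 < a) (had : a < d) (h1 : a * (y - 1) < q * s) (h2 : q * s ≤ a * y) : False := by
  obtain ⟨e, he⟩ : ∃ e, e = s * d - t * a := ⟨_, rfl⟩
  obtain ⟨m, hm⟩ : ∃ m, m = v * s - a * k := ⟨_, rfl⟩
  have ham : a = -(v * e) + d * m := by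
    have : a * (t * v) = a * (1 + k * d) := by rw [ht]
    rw [he, hm]; linarith
  have key : d * (q * s - a * y) = q * e - a * u := by
    rw [he]
    have : a * (t * q) = a * (y * d - u) := by rw [hy]
    linarith
  have hA : q * e ≤ a * u := by nlinarith
  have hB : -(a * d) < q * e - a * u := by nlinarith
  rcases lt_trichotomy e 0 with h0 | h0 | h0
  · obtain ⟨f, hf⟩ : ∃ f, f = -e := ⟨_, rfl⟩
    have hf0 : 0 < f := by omega
    have ef : e = -f := by omega
    rw [ef] at hB ham
    have h3 : d * (f * (G - v)) < d * (m * (d - u)) := by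
      have e1 : d * (f * (G - v)) = f * q + f * u * v - d * f * v := by
        have : d * (f * (G - v)) = f * (G * d) - d * f * v := by ring
        rw [this, hG]; ring
      have e2 : d * (m * (d - u)) = (a - v * f) * (d - u) := by rw [ham]; ring
      rw [e1, e2]; nlinarith
    have h4 : f * (G - v) < m * (d - u) := lt_of_mul_lt_mul_left h3 hd.le
    have h5 : 0 < f * (G - v) := mul_pos hf0 (by omega)
    have h6 : 0 < m := by
      by_contra hc
      have : m * (d - u) ≤ 0 := mul_nonpos_of_nonpos_of_nonneg (by omega) (by omega)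
      omega
    have : 0 < v * f := mul_pos hv hf0
    have : d ≤ d * m := by nlinarith
    linarith
  · rw [h0] at ham
    have e1 : a = d * m := by rw [ham]; ring
    have hm0 : 0 < m := by
      by_contra hc
      have : d * m ≤ 0 := mul_nonpos_of_nonneg_of_nonpos hd.le (by omega)
      omega
    nlinarith
  · have h3 : d * (e * G) ≤ d * (u * m) := by
      have e1 : d * (e * G) = e * q + e * u * v := by
        have : d * (e * G) = e * (G * d) := by ring
        rw [this, hG]; ring
      rw [e1]
      have : a * u = (-(v * e) + d * m) * u := by rw [← ham]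
      nlinarith
    have h4 : e * G ≤ u * m := le_of_mul_le_mul_left h3 hd
    have h5 : 0 < e * G := mul_pos h0 (by omega)
    have hm0 : 0 < m := by
      by_contra hc
      have : u * m ≤ 0 := mul_nonpos_of_nonneg_of_nonpos hu.le (by omega)
      omega
    have h6 : e < m := by
      have : u * m < G * m := mul_lt_mul_of_pos_right huG hm0
      have : e * G < m * G := by linarith
      exact lt_of_mul_lt_mul_right this (by omega)
    have h7 : d ≤ -(v * e) + d * m := by
      have : 0 ≤ (d - v) * e := mul_nonneg (by omega) h0.le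
      have : d * (e + 1) ≤ d * m := mul_le_mul_of_nonneg_left (by omega) hd.le
      nlinarith
    omega

lemma minDen (q G d u v : ℕ) (hq : q.Prime) (hu : 0 < u) (huG : u < G) (hv : 0 < v) (hvG : v < G)
    (hGd : G ≤ d) (h : G * d = q + u * v) (h2 : 2 * d ≤ q) : MinDen q d := by
  have hq2 := hq.two_le
  have hd1 : 1 < d := by omega
  have hcop : Nat.Coprime v d := by
    have h3 : Nat.gcd v d ∣ q := by
      have h4 : Nat.gcd v d ∣ G * d := (Nat.gcd_dvd_right v d).mul_left _
      rw [h] at h4
      exact (Nat.dvd_add_iff_left ((Nat.gcd_dvd_left v d).mul_left _)).2 h4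
    rcases (Nat.dvd_prime hq).1 h3 with h4 | h4
    · exact h4
    · exfalso
      have := Nat.le_of_dvd hv (Nat.gcd_dvd_left v d)
      omega
  obtain ⟨t, htd, htm⟩ := Nat.exists_mul_mod_eq_one_of_coprime hcop hd1
  have ht0 : 0 < t := by
    rcases Nat.eq_zero_or_pos t with h0 | h0
    · rw [h0] at htm; simp at htm
    · exact h0
  obtain ⟨k, hk⟩ : ∃ k, k = v * t / d := ⟨_, rfl⟩
  have htv : v * t = 1 + k * d := by
    have := Nat.div_add_mod (v * t) d
    rw [htm, ← hk] at this
    linarith [mul_comm d k]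
  have hZ : (G : ℤ) * d = q + u * v := by exact_mod_cast h
  have htvZ : (t : ℤ) * v = 1 + k * d := by
    have : (v : ℤ) * t = 1 + k * d := by exact_mod_cast htv
    linarith
  have hyd : ∃ y : ℤ, (t : ℤ) * q = y * d - u := by
    refine ⟨t * G - u * k, ?_⟩
    have : (t : ℤ) * (G * d) = t * (q + u * v) := by rw [hZ]
    have h4 : (u : ℤ) * (t * v) = u * (1 + k * d) := by rw [htvZ]
    linarith
  obtain ⟨y', hy'⟩ := hyd
  have hd0 : (0 : ℤ) < d := by exact_mod_cast (by omega : 0 < d)
  have hy2 : 2 < y' := by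
    have h5 : (2 : ℤ) * d ≤ q := by exact_mod_cast h2
    have h6 : (1 : ℤ) ≤ t := by exact_mod_cast ht0
    have h7 : (0 : ℤ) < u := by exact_mod_cast hu
    have h8 : (q : ℤ) ≤ t * q := by nlinarith
    have : (2 : ℤ) * d < y' * d := by linarith
    exact lt_of_mul_lt_mul_right this hd0.le
  have hyq : y' < q := by
    have h6 : (t : ℤ) ≤ d - 1 := by
      have : (t : ℤ) < d := by exact_mod_cast htd
      linarith
    have h7 : (u : ℤ) < q := by exact_mod_cast (by omega : u < q)
    have h8 : (t : ℤ) * q ≤ (d - 1) * q := mul_le_mul_of_nonneg_right h6 (by positivity)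
    have : y' * d < q * d := by nlinarith
    exact lt_of_mul_lt_mul_right this hd0.le
  obtain ⟨x, hx⟩ : ∃ x : ℕ, (x : ℤ) = y' - 1 := ⟨(y' - 1).toNat, Int.toNat_of_nonneg (by omega)⟩
  have hyx : y' = x + 1 := by omega
  have hq0 : 0 < q := by omega
  -- values at `d`
  have hdy : d * (x + 1) = t * q + u := by
    have : ((d * (x + 1) : ℕ) : ℤ) = ((t * q + u : ℕ) : ℤ) := by
      push_cast
      rw [← hyx]
      linarith
    exact_mod_cast this
  have huq : u < q := by omega
  have hdq : d < q := by omega
  have hv1 : (d * (x + 1)) / q = t := by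
    rw [hdy, mul_comm, Nat.mul_add_div hq0, Nat.div_eq_of_lt huq, add_zero]
  have hv2 : (d * x) / q = t - 1 := by
    have e1 : d * x + d = t * q + u := by rw [← hdy]; ring
    have e2 : t * q = (t - 1) * q + q := by
      obtain ⟨t', rfl⟩ : ∃ t', t = t' + 1 := ⟨t - 1, by omega⟩
      simp; ring
    rw [Nat.div_eq_of_lt_le]
    · omega
    · have : (t - 1 + 1) * q = (t - 1) * q + q := by ring
      omega
  refine ⟨x, by omega, by omega, by rw [hv1, hv2]; omega, ?_⟩
  intro a ha had
  by_contra hne
  have hle : (a * x) / q ≤ (a * (x + 1)) / q := Nat.div_le_div_right (Nat.mul_le_mul_left _ (by omega))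
  obtain ⟨s, hs⟩ : ∃ s, s = (a * (x + 1)) / q := ⟨_, rfl⟩
  have hs1 : q * s ≤ a * (x + 1) := by rw [hs]; exact Nat.mul_div_le _ _
  have hs2 : a * x < q * s := by
    have : (a * x) / q < s := by omega
    rw [mul_comm q s]
    exact (Nat.div_lt_iff_lt_mul hq0).1 this
  refine cell_int q G d u v t k y' a s (by exact_mod_cast hu) (by exact_mod_cast huG) (by exact_mod_cast hv)
    (by exact_mod_cast hvG) (by exact_mod_cast (by omega : u < d)) (by exact_mod_cast (by omega : v ≤ d)) hZ hd0
    htvZ hy' (by exact_mod_cast ha) (by exact_mod_cast had) ?_ ?_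
  · rw [hyx]; push_cast
    have : (a : ℤ) * x < q * s := by exact_mod_cast hs2
    linarith
  · rw [hyx]; exact_mod_cast hs1

end Pool.Agent.L5helper14.UnitL
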