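import Pool.Agent.L5helper14.UnitL.Cell

/-!
# Many minimal denominators of size `q^(2/3)`
-/

set_option autoImplicit false

namespace Pool.Agent.L5helper14.UnitL

open Finset

/-- At most `k` primes with square larger than `X` divide a number below `X ^ ((k + 1) / 2)`. -/
lemma card_big_primes (X n k : ℕ) (hX : 1 < X) (hn : 0 < n) (F : Finset ℕ) (hF : ∀ u ∈ F, u.Prime ∧ X < u ^ 2 ∧ u ∣ n)
    (hk : n ^ 2 ≤ X ^ (k + 1)) : F.card ≤ k := by
  have h1 : ∏ u ∈ F, u ∣ n :=
    Finset.prod_primes_dvd n (fun u hu => (hF u hu).1.prime) (fun u hu => (hF u hu).2.2)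
  have h2 : (∏ u ∈ F, u) ≤ n := Nat.le_of_dvd hn h1
  rcases F.eq_empty_or_nonempty with h0 | h0
  · rw [h0]; simp
  have h3 : X ^ F.card < (∏ u ∈ F, u) ^ 2 := by
    rw [← Finset.prod_pow, ← Finset.prod_const]
    exact Finset.prod_lt_prod_of_nonempty (fun _ _ => by omega) (fun u hu => (hF u hu).2.1) h0
  have h4 : X ^ F.card < X ^ (k + 1) :=
    h3.trans_le ((Nat.pow_le_pow_left h2 2).trans hk)
  have := (Nat.pow_lt_pow_iff_right hX).1 h4
  omega

lemma exists_v (q G u : ℕ) (hq : q.Prime) (hG : 1 < G) (hGq : G < q) (hu : Nat.Coprime u G) :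
    ∃ v : ℕ, 0 < v ∧ v < G ∧ G ∣ q + u * v := by
  obtain ⟨w, hwG, hw⟩ := Nat.exists_mul_mod_eq_one_of_coprime hu hG
  have hG0 : (0 : ℤ) < G := by exact_mod_cast (by omega : 0 < G)
  obtain ⟨v, hv⟩ : ∃ v : ℕ, (v : ℤ) = (-(q : ℤ) * w) % G :=
    ⟨((-(q : ℤ) * w) % G).toNat, Int.toNat_of_nonneg (Int.emod_nonneg _ hG0.ne')⟩
  have hvG : v < G := by
    have := Int.emod_lt_of_pos (-(q : ℤ) * w) hG0
    rw [← hv] at this
    exact_mod_cast this
  have hdvd : (G : ℤ) ∣ q + u * v := by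
    have h1 : (G : ℤ) ∣ v - (-(q : ℤ) * w) := by
      rw [hv]
      have := Int.emod_add_mul_ediv (-(q : ℤ) * w) G
      exact ⟨-((-(q : ℤ) * w) / G), by linarith⟩
    have h2 : (G : ℤ) ∣ u * w - 1 := by
      have h3 : (u * w) % G = 1 := hw
      have h4 := Nat.div_add_mod (u * w) G
      rw [h3] at h4
      have h5 : (G : ℤ) * ((u * w) / G : ℕ) + 1 = u * w := by exact_mod_cast h4
      exact ⟨((u * w) / G : ℕ), by linarith⟩
    have h6 : (q : ℤ) + u * v = u * (v - (-(q : ℤ) * w)) - q * (u * w - 1) := by ring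
    rw [h6]
    exact dvd_sub (h1.mul_left _) (h2.mul_left _)
  have hdvd' : G ∣ q + u * v := by exact_mod_cast hdvd
  refine ⟨v, ?_, hvG, hdvd'⟩
  rcases Nat.eq_zero_or_pos v with h0 | h0
  · exfalso
    rw [h0, mul_zero, add_zero] at hdvd'
    rcases (Nat.dvd_prime hq).1 hdvd' with h | h <;> omega
  · exact h0

/-- The primes `u ≤ X` with `X < u ^ 2`. -/
def bigPrimes (X : ℕ) : Finset ℕ := (Finset.Icc 1 X).filter (fun u => u.Prime ∧ X < u ^ 2)

lemma card_bigPrimes (X : ℕ) : Nat.primeCounting X ≤ (bigPrimes X).card + Nat.sqrt X := by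
  have h1 : (Finset.Icc 1 X).filter Nat.Prime ⊆ bigPrimes X ∪ Finset.Icc 1 (Nat.sqrt X) := by
    intro u hu
    rw [Finset.mem_filter, Finset.mem_Icc] at hu
    rw [Finset.mem_union, bigPrimes, Finset.mem_filter, Finset.mem_Icc, Finset.mem_Icc]
    by_cases h : X < u ^ 2
    · exact Or.inl ⟨hu.1, hu.2, h⟩
    · refine Or.inr ⟨hu.1.1, Nat.le_sqrt'.2 (by omega)⟩
  have h2 : Nat.primeCounting X = ((Finset.Icc 1 X).filter Nat.Prime).card := by
    rw [Nat.primeCounting, Nat.primeCounting', Nat.count_eq_card_filter_range]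
    congr 1
    ext u
    simp only [Finset.mem_filter, Finset.mem_range, Finset.mem_Icc]
    constructor
    · rintro ⟨h1, h2⟩; exact ⟨⟨h2.one_le, by omega⟩, h2⟩
    · rintro ⟨h1, h2⟩; exact ⟨by omega, h2⟩
  rw [h2]
  refine (Finset.card_le_card h1).trans ((Finset.card_union_le _ _).trans ?_)
  simp

theorem many_minDen (q X : ℕ) (hq : q.Prime) (hX : 4 ≤ X) (hXq : 4 * X ^ 3 ≤ q) :
    ∃ S : Finset ℕ, (∀ d ∈ S, MinDen q d ∧ d < q) ∧
      X * Nat.primeCounting X ≤ 4 * S.card + X * (Nat.sqrt X + 2) := by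
  classical
  obtain ⟨A, hA⟩ : ∃ A : Finset (ℕ × ℕ), A = (Finset.Ioc X (2 * X) ×ˢ bigPrimes X).filter (fun z => ¬ z.2 ∣ z.1) :=
    ⟨_, rfl⟩
  have hX3 : 4 * X ^ 3 = 4 * X * X * X := by ring
  have hXX : 4 * X ≤ X * X := Nat.mul_le_mul_right X hX
  have hXXX : 4 * (X * X) ≤ X * X * X := by nlinarith
  have hmem : ∀ z ∈ A, X < z.1 ∧ z.1 ≤ 2 * X ∧ 1 ≤ z.2 ∧ z.2 ≤ X ∧ z.2.Prime ∧ X < z.2 ^ 2 ∧ ¬ z.2 ∣ z.1 := by
    intro z hz
    rw [hA, Finset.mem_filter, Finset.mem_product, Finset.mem_Ioc, bigPrimes, Finset.mem_filter, Finset.mem_Icc] at hz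
    exact ⟨hz.1.1.1, hz.1.1.2, hz.1.2.1.1, hz.1.2.1.2, hz.1.2.2.1, hz.1.2.2.2, hz.2⟩
  have hv : ∀ z : ℕ × ℕ, ∃ v : ℕ, z ∈ A → 0 < v ∧ v < z.1 ∧ z.1 ∣ q + z.2 * v := by
    intro z
    by_cases hz : z ∈ A
    · obtain ⟨h1, h2, h3, h4, h5, h6, h7⟩ := hmem z hz
      obtain ⟨v, hv1, hv2, hv3⟩ := exists_v q z.1 z.2 hq (by omega) (by nlinarith)
        ((Nat.Prime.coprime_iff_not_dvd h5).2 h7)
      exact ⟨v, fun _ => ⟨hv1, hv2, hv3⟩⟩
    · exact ⟨0, fun h => absurd h hz⟩
  choose v hv using hv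
  obtain ⟨Φ, hΦ⟩ : ∃ Φ : ℕ × ℕ → ℕ, ∀ z, Φ z = (q + z.2 * v z) / z.1 := ⟨_, fun _ => rfl⟩
  have hΦm : ∀ z ∈ A, z.1 * Φ z = q + z.2 * v z := fun z hz => by
    rw [hΦ]; exact Nat.mul_div_cancel' (hv z hz).2.2
  have hn : ∀ z ∈ A, z.2 * v z < 2 * X ^ 2 ∧ 0 < z.2 * v z := by
    intro z hz
    obtain ⟨h1, h2, h3, h4, h5, h6, h7⟩ := hmem z hz
    obtain ⟨h8, h9, -⟩ := hv z hz
    refine ⟨?_, Nat.mul_pos h3 h8⟩
    have : z.2 * v z < X * (2 * X) := by
      calc z.2 * v z < z.2 * (2 * X) := Nat.mul_lt_mul_of_pos_left (by omega) h3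
        _ ≤ X * (2 * X) := Nat.mul_le_mul_right _ h4
    calc z.2 * v z < X * (2 * X) := this
      _ = 2 * X ^ 2 := by ring
  have hΦl : ∀ z ∈ A, 2 * X ^ 2 ≤ Φ z := by
    intro z hz
    obtain ⟨h1, h2, -⟩ := hmem z hz
    have h3 := hΦm z hz
    have h4 : 2 * X * (2 * X ^ 2) ≤ 2 * X * Φ z := by
      have : z.1 * Φ z ≤ 2 * X * Φ z := Nat.mul_le_mul_right _ h2
      have e : 2 * X * (2 * X ^ 2) = 4 * X ^ 3 := by ring
      omega
    exact Nat.le_of_mul_le_mul_left h4 (by omega)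
  refine ⟨A.image Φ, ?_, ?_⟩
  · intro d hd
    obtain ⟨z, hz, rfl⟩ := Finset.mem_image.1 hd
    obtain ⟨h1, h2, h3, h4, h5, h6, h7⟩ := hmem z hz
    obtain ⟨h8, h9, -⟩ := hv z hz
    have h10 := hΦm z hz
    have h11 := hΦl z hz
    have h12 := (hn z hz).1
    have h2d : 2 * Φ z ≤ q := by
      have h13 : (X + 1) * Φ z ≤ q + 2 * X ^ 2 := by
        have : (X + 1) * Φ z ≤ z.1 * Φ z := Nat.mul_le_mul_right _ h1
        omega
      have h14 : 2 * X ^ 2 ≤ q := by nlinarith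
      have h15 : (X + 1) * Φ z ≤ 2 * q := by omega
      have h16 : 5 * Φ z ≤ (X + 1) * Φ z := Nat.mul_le_mul_right _ (by omega)
      omega
    refine ⟨minDen q z.1 (Φ z) z.2 (v z) hq h3 (by omega) h8 h9 ?_ h10 h2d, ?_⟩
    · have : 2 * X ≤ 2 * X ^ 2 := by nlinarith
      omega
    · have := hq.two_le
      omega
  · have hfib : A.card ≤ 4 * (A.image Φ).card := by
      apply Finset.card_le_mul_card_image
      intro d hd
      obtain ⟨z₀, hz₀, hd₀⟩ := Finset.mem_image.1 hd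
      -- all the members have the same first coordinate
      have hsame : ∀ z ∈ A.filter (fun z => Φ z = d), z.1 = z₀.1 := by
        intro z hz
        rw [Finset.mem_filter] at hz
        have h1 := hΦm z hz.1
        have h2 := hΦm z₀ hz₀
        rw [hz.2] at h1
        rw [hd₀] at h2
        have h3 := hΦl z₀ hz₀
        rw [hd₀] at h3
        have h4 := (hn z hz.1).1
        have h5 := (hn z₀ hz₀).1
        rcases lt_trichotomy z.1 z₀.1 with h | h | h
        · exfalso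
          have : (z.1 + 1) * d ≤ z₀.1 * d := Nat.mul_le_mul_right _ h
          have e : (z.1 + 1) * d = z.1 * d + d := by ring
          omega
        · exact h
        · exfalso
          have : (z₀.1 + 1) * d ≤ z.1 * d := Nat.mul_le_mul_right _ h
          have e : (z₀.1 + 1) * d = z₀.1 * d + d := by ring
          omega
      have hinj : Set.InjOn Prod.snd (A.filter (fun z => Φ z = d) : Set (ℕ × ℕ)) := by
        intro z hz z' hz' h
        exact Prod.ext ((hsame z hz).trans (hsame z' hz').symm) h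
      rw [← Finset.card_image_of_injOn hinj]
      refine card_big_primes X (z₀.2 * v z₀) 4 (by omega) (hn z₀ hz₀).2 _ ?_ ?_
      · intro u hu
        obtain ⟨z, hz, rfl⟩ := Finset.mem_image.1 hu
        have hs := hsame z hz
        rw [Finset.mem_filter] at hz
        obtain ⟨h1, h2, h3, h4, h5, h6, h7⟩ := hmem z hz.1
        refine ⟨h5, h6, ?_⟩
        have h8 := hΦm z hz.1
        have h9 := hΦm z₀ hz₀
        rw [hz.2, hs] at h8
        rw [hd₀] at h9
        have : z₀.2 * v z₀ = z.2 * v z := by omega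
        rw [this]
        exact dvd_mul_right _ _
      · have h1 := (hn z₀ hz₀).1
        have h2 : (z₀.2 * v z₀) ^ 2 ≤ (2 * X ^ 2) ^ 2 := Nat.pow_le_pow_left h1.le 2
        have e1 : (2 * X ^ 2) ^ 2 = 4 * X ^ 4 := by ring
        have e2 : X ^ (4 + 1) = X * X ^ 4 := by ring
        have : 4 * X ^ 4 ≤ X * X ^ 4 := Nat.mul_le_mul_right _ hX
        omega
    have hAcard : X * (bigPrimes X).card ≤ A.card + X * 2 := by
      have h1 : (Finset.Ioc X (2 * X) ×ˢ bigPrimes X).card = X * (bigPrimes X).card := by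
        rw [Finset.card_product, Nat.card_Ioc]
        congr 1
        omega
      rw [← h1, ← Finset.card_filter_add_card_filter_not (s := Finset.Ioc X (2 * X) ×ˢ bigPrimes X) (fun z => ¬ z.2 ∣ z.1)]
      rw [← hA]
      refine Nat.add_le_add_left ?_ _
      have h2 : ((Finset.Ioc X (2 * X) ×ˢ bigPrimes X).filter (fun z => ¬ ¬ z.2 ∣ z.1)).card ≤
          2 * (Finset.Ioc X (2 * X)).card := by
        refine (Finset.card_le_mul_card_image_of_maps_to (f := Prod.fst) (t := Finset.Ioc X (2 * X)) ?_ 2 ?_)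
        · intro z hz
          rw [Finset.mem_filter, Finset.mem_product] at hz
          exact hz.1.1
        · intro G hG
          rw [Finset.mem_Ioc] at hG
          have hinj : Set.InjOn Prod.snd ((((Finset.Ioc X (2 * X) ×ˢ bigPrimes X).filter
              (fun z => ¬ ¬ z.2 ∣ z.1)).filter (fun z => z.1 = G) : Finset (ℕ × ℕ)) : Set (ℕ × ℕ)) := by
            intro z hz z' hz' h
            rw [Finset.mem_coe, Finset.mem_filter] at hz hz'
            exact Prod.ext (hz.2.trans hz'.2.symm) h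
          rw [← Finset.card_image_of_injOn hinj]
          refine card_big_primes X G 2 (by omega) (by omega) _ ?_ ?_
          · intro u hu
            obtain ⟨z, hz, rfl⟩ := Finset.mem_image.1 hu
            rw [Finset.mem_filter, Finset.mem_filter, Finset.mem_product, not_not, bigPrimes, Finset.mem_filter] at hz
            exact ⟨hz.1.1.2.2.1, hz.1.1.2.2.2, hz.2 ▸ hz.1.2⟩
          · have h2 : G ^ 2 ≤ (2 * X) ^ 2 := Nat.pow_le_pow_left hG.2 2
            have e1 : (2 * X) ^ 2 = 4 * X ^ 2 := by ring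
            have e2 : X ^ (2 + 1) = X * X ^ 2 := by ring
            have : 4 * X ^ 2 ≤ X * X ^ 2 := Nat.mul_le_mul_right _ hX
            omega
      rw [Nat.card_Ioc] at h2
      have e : 2 * (2 * X - X) = X * 2 := by omega
      rw [e] at h2
      exact h2
    have h5 := card_bigPrimes X
    have h6 : X * Nat.primeCounting X ≤ X * ((bigPrimes X).card + Nat.sqrt X) := Nat.mul_le_mul_left _ h5
    have e1 : X * ((bigPrimes X).card + Nat.sqrt X) = X * (bigPrimes X).card + X * Nat.sqrt X := by ring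
    have e2 : X * (Nat.sqrt X + 2) = X * Nat.sqrt X + X * 2 := by ring
    omega

end Pool.Agent.L5helper14.UnitL
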