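import Pool.Agent.L5helper14.UnitL.Rank
import Pool.Agent.L5helper14.UnitL.Count

/-!
# `N_p(q) ≥ q^(2/3) / (128 log q)` for all large primes `q`, `p ∤ q (q - 1)`
-/

set_option autoImplicit false

namespace Pool.Agent.L5helper14.UnitL

open Filter Topology

lemma eventually_X : ∀ᶠ x : ℝ in atTop, Real.log x ≤ x ^ (1 / 4 : ℝ) ∧ 100 ≤ x ^ (1 / 4 : ℝ) := by
  have h1 := (isLittleO_log_rpow_atTop (show (0 : ℝ) < 1 / 4 by norm_num)).bound (show (0 : ℝ) < 1 by norm_num)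
  filter_upwards [h1, (tendsto_rpow_atTop (show (0 : ℝ) < 1 / 4 by norm_num)).eventually_ge_atTop 100,
    eventually_ge_atTop (1 : ℝ)] with x hx hx2 hx3
  refine ⟨?_, hx2⟩
  rw [Real.norm_eq_abs, Real.norm_eq_abs, abs_of_nonneg (Real.log_nonneg hx3),
    abs_of_nonneg (by positivity), one_mul] at hx
  exact hx

lemma count_bound (X u : ℕ) (hX : 4 ≤ X) (h1 : Real.log X ≤ (X : ℝ) ^ (1 / 4 : ℝ)) (h2 : 100 ≤ (X : ℝ) ^ (1 / 4 : ℝ))
    (hu : X * Nat.primeCounting X ≤ 4 * (u + 1) + X * (Nat.sqrt X + 2)) :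
    (X : ℝ) ^ 2 / (8 * Real.log X) ≤ u := by
  obtain ⟨s, hs⟩ : ∃ s : ℝ, s = (X : ℝ) ^ (1 / 4 : ℝ) := ⟨_, rfl⟩
  rw [← hs] at h1 h2
  have hX0 : (0 : ℝ) ≤ X := Nat.cast_nonneg X
  have hX4 : (4 : ℝ) ≤ X := by exact_mod_cast hX
  have hs4 : s ^ 4 = X := by
    rw [hs, ← Real.rpow_natCast, ← Real.rpow_mul hX0]
    norm_num
  have hsq : (Nat.sqrt X : ℝ) ≤ s ^ 2 := by
    have h3 : ((Nat.sqrt X : ℕ) : ℝ) ^ 2 ≤ (s ^ 2) ^ 2 := by
      have : (s ^ 2) ^ 2 = X := by rw [← hs4]; ring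
      rw [this]
      exact_mod_cast Nat.sqrt_le' X
    exact le_of_sq_le_sq h3 (by positivity) |> fun h => h
  have hL0 : 0 < Real.log X := Real.log_pos (by linarith)
  have hpi := Chebyshev.pi_ge X
  rw [div_le_iff₀ hL0] at hpi
  have hlog2 : (0.69 : ℝ) ≤ Real.log 2 := by have := Real.log_two_gt_d9; linarith
  have hlog1 : Real.log ((X : ℝ) + 1) ≤ s + 1 := by
    have e1 : Real.log ((X : ℝ) + 1) ≤ Real.log X + 1 := by
      have h5 : (X : ℝ) + 1 ≤ X * Real.exp 1 := by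
        have := Real.add_one_le_exp (1 : ℝ)
        nlinarith
      calc Real.log ((X : ℝ) + 1) ≤ Real.log (X * Real.exp 1) := Real.log_le_log (by positivity) h5
        _ = Real.log X + 1 := by rw [Real.log_mul (by positivity) (Real.exp_ne_zero _), Real.log_exp]
    linarith
  have huR : (X : ℝ) * Nat.primeCounting X ≤ 4 * (u + 1) + X * (Nat.sqrt X + 2) := by exact_mod_cast hu
  rw [div_le_iff₀ (by positivity)]
  -- `X π L ≤ (4 (u + 1) + X (√X + 2)) L`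
  have h6 : (X : ℝ) * (X * Real.log 2 - Real.log ((X : ℝ) + 1)) ≤ (4 * (u + 1) + X * (Nat.sqrt X + 2)) * Real.log X := by
    calc (X : ℝ) * (X * Real.log 2 - Real.log ((X : ℝ) + 1)) ≤ X * (Nat.primeCounting X * Real.log X) :=
          mul_le_mul_of_nonneg_left hpi hX0
      _ = (X * Nat.primeCounting X) * Real.log X := by ring
      _ ≤ _ := mul_le_mul_of_nonneg_right huR hL0.le
  have h7 : (X : ℝ) * (X * 0.69 - (s + 1)) ≤ (X : ℝ) * (X * Real.log 2 - Real.log ((X : ℝ) + 1)) := by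
    apply mul_le_mul_of_nonneg_left _ hX0
    nlinarith
  have h8 : (4 * ((u : ℝ) + 1) + X * (Nat.sqrt X + 2)) * Real.log X ≤ 4 * u * Real.log X + (4 + X * (s ^ 2 + 2)) * s := by
    have e1 : (4 * ((u : ℝ) + 1) + X * (Nat.sqrt X + 2)) * Real.log X =
      4 * u * Real.log X + (4 + X * (Nat.sqrt X + 2)) * Real.log X := by ring
    rw [e1]
    have e2 : (4 + (X : ℝ) * (Nat.sqrt X + 2)) ≤ 4 + X * (s ^ 2 + 2) := by nlinarith
    have e3 : (4 + (X : ℝ) * (Nat.sqrt X + 2)) * Real.log X ≤ (4 + X * (s ^ 2 + 2)) * s :=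
      mul_le_mul e2 h1 hL0.le (by positivity)
    linarith
  have h9 : (X : ℝ) * (X * 0.69 - (s + 1)) - (4 + X * (s ^ 2 + 2)) * s ≥ X ^ 2 / 2 := by
    have e1 : (4 : ℝ) ≤ X := hX4
    have e2 : 100 * s ^ 3 ≤ X := by
      rw [← hs4]
      have : 0 ≤ s ^ 3 := by positivity
      nlinarith
    have e3 : s + 1 + (s ^ 2 + 3) * s ≤ 5 * s ^ 3 := by
      have : 1 ≤ s := by linarith
      have h10 : s ≤ s ^ 3 := by nlinarith [sq_nonneg s, sq_nonneg (s - 1)]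
      have h11 : (1 : ℝ) ≤ s ^ 3 := by linarith
      nlinarith
    have e4 : (4 : ℝ) * s ≤ X * s := mul_le_mul_of_nonneg_right e1 (by linarith)
    nlinarith
  linarith

theorem main_bound : ∃ Q : ℕ, ∀ p q : ℕ, p.Prime → q.Prime → p ≠ q → ¬ p ∣ q - 1 → Q ≤ q →
    ∀ P : Ideal (integralClosure ℤ ℂ), P.IsMaximal → (p : integralClosure ℤ ℂ) ∈ P →
      (q : ℝ) ^ (2 / 3 : ℝ) / (128 * Real.log q) ≤ (unitCount q P : ℝ) := by
  obtain ⟨X₀, hX₀⟩ := eventually_atTop.1 eventually_X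
  obtain ⟨Y, hY⟩ : ∃ Y : ℕ, max X₀ 4 ≤ (Y : ℝ) := exists_nat_ge _
  refine ⟨4 * (Y + 1) ^ 3, fun p q hp hq hpq hpq1 hQ P hP hpP => ?_⟩
  obtain ⟨x, hx⟩ : ∃ x : ℝ, x = ((q : ℝ) / 4) ^ (1 / 3 : ℝ) := ⟨_, rfl⟩
  have hq0 : (0 : ℝ) ≤ (q : ℝ) / 4 := by positivity
  have hx3 : x ^ 3 = (q : ℝ) / 4 := by
    rw [hx, ← Real.rpow_natCast, ← Real.rpow_mul hq0]
    norm_num
  have hx0 : 0 ≤ x := by rw [hx]; positivity
  have hxY : (Y : ℝ) + 1 ≤ x := by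
    have h1 : ((Y : ℝ) + 1) ^ 3 ≤ x ^ 3 := by
      rw [hx3]
      have : (4 : ℝ) * ((Y : ℝ) + 1) ^ 3 ≤ q := by exact_mod_cast hQ
      linarith
    exact (pow_le_pow_iff_left₀ (by positivity) hx0 (by norm_num)).1 h1
  obtain ⟨X, hX⟩ : ∃ X : ℕ, X = ⌊x⌋₊ := ⟨_, rfl⟩
  have hXx : (X : ℝ) ≤ x := by rw [hX]; exact Nat.floor_le hx0
  have hxX : x < X + 1 := by rw [hX]; exact Nat.lt_floor_add_one x
  have hYX : (Y : ℝ) ≤ X := by
    have : (Y : ℝ) < X := by linarith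
    exact this.le
  have hX4 : 4 ≤ X := by
    have : (4 : ℝ) ≤ X := (le_max_right _ _).trans (hY.trans hYX)
    exact_mod_cast this
  obtain ⟨h1, h2⟩ := hX₀ X ((le_max_left _ _).trans (hY.trans hYX))
  have hXq : 4 * X ^ 3 ≤ q := by
    have : (4 : ℝ) * (X : ℝ) ^ 3 ≤ q := by
      have h3 : (X : ℝ) ^ 3 ≤ x ^ 3 := pow_le_pow_left₀ (Nat.cast_nonneg X) hXx 3
      rw [hx3] at h3
      linarith
    exact_mod_cast this
  obtain ⟨S, hS, hcard⟩ := many_minDen q X hq hX4 hXq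
  have hSu := card_minDen hp hq hpq hpq1 P hP hpP S hS
  have h3 := count_bound X (unitCount q P) hX4 h1 h2 (by omega)
  refine le_trans ?_ h3
  have hX4' : (4 : ℝ) ≤ X := by exact_mod_cast hX4
  have hL0 : 0 < Real.log X := Real.log_pos (by linarith)
  have hqX : (X : ℝ) ≤ q := by
    have : X ≤ q := by nlinarith [Nat.pow_le_pow_right (show 0 < X by omega) (show 1 ≤ 3 by norm_num)]
    exact_mod_cast this
  have hLq : Real.log X ≤ Real.log q := Real.log_le_log (by linarith) hqX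
  have h4 : (q : ℝ) ^ (2 / 3 : ℝ) ≤ 16 * (X : ℝ) ^ 2 := by
    have h5 : (q : ℝ) ^ (2 / 3 : ℝ) = (4 : ℝ) ^ (2 / 3 : ℝ) * x ^ 2 := by
      rw [hx, ← Real.rpow_natCast, ← Real.rpow_mul hq0, show ((1 / 3 : ℝ) * ((2 : ℕ) : ℝ)) = 2 / 3 by norm_num,
        ← Real.mul_rpow (by norm_num) hq0]
      congr 1
      ring
    have h6 : (4 : ℝ) ^ (2 / 3 : ℝ) ≤ 4 := by
      calc (4 : ℝ) ^ (2 / 3 : ℝ) ≤ (4 : ℝ) ^ (1 : ℝ) :=
            Real.rpow_le_rpow_of_exponent_le (by norm_num) (by norm_num)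
        _ = 4 := Real.rpow_one 4
    have h7 : x ^ 2 ≤ 4 * (X : ℝ) ^ 2 := by nlinarith
    rw [h5]
    calc (4 : ℝ) ^ (2 / 3 : ℝ) * x ^ 2 ≤ 4 * (4 * (X : ℝ) ^ 2) := mul_le_mul h6 h7 (by positivity) (by norm_num)
      _ = 16 * (X : ℝ) ^ 2 := by ring
  calc (q : ℝ) ^ (2 / 3 : ℝ) / (128 * Real.log q) ≤ 16 * (X : ℝ) ^ 2 / (128 * Real.log X) :=
        div_le_div₀ (by positivity) h4 (by positivity) (by linarith)
    _ = (X : ℝ) ^ 2 / (8 * Real.log X) := by field_simp; norm_num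

end Pool.Agent.L5helper14.UnitL
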