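import Pool.Agent.L5helper14.UnitL.Cell

/-!
# The number of odd characters modulo `q` whose `L(χ, 0)` is a unit, and minimal denominators
-/

set_option autoImplicit false

namespace Pool.Agent.L5helper14.UnitL

open Finset

/-- The number of the odd characters `χ` modulo `q` for which `L(χ, 0) = -(1 / q) ∑ k χ(k)` is a unit at the maximal ideal
`P` of the ring of the algebraic integers. -/
noncomputable def unitCount (q : ℕ) (P : Ideal (integralClosure ℤ ℂ)) : ℕ :=
  ({χ : DirichletCharacter ℂ q |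
      χ (-1 : ZMod q) = -1 ∧
      ∃ a b : integralClosure ℤ ℂ, a ∉ P ∧ b ∉ P ∧
        (b : ℂ) * (-(1 / (q : ℂ)) *
          ∑ k ∈ Finset.Ico 1 q, (k : ℂ) * χ (k : ZMod q)) = (a : ℂ)}
    : Set (DirichletCharacter ℂ q)).ncard

lemma isIntegral_char {q : ℕ} [NeZero q] (χ : DirichletCharacter ℂ q) (a : ZMod q) :
    IsIntegral ℤ (χ a) := by
  by_cases ha : IsUnit a
  · obtain ⟨u, rfl⟩ := ha
    have h1 : (χ u) ^ (Nat.totient q) = 1 := by
      rw [← map_pow, ← Units.val_pow_eq_pow_val, ZMod.pow_totient, Units.val_one, map_one]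
    refine IsIntegral.of_pow (Nat.totient_pos.2 (Nat.pos_of_ne_zero (NeZero.ne q))) ?_
    rw [h1]
    exact isIntegral_one
  · rw [MulChar.map_nonunit χ ha]
    exact isIntegral_zero

/-- The value of a character as an algebraic integer. -/
noncomputable def chR {q : ℕ} [NeZero q] (χ : DirichletCharacter ℂ q) (a : ZMod q) : integralClosure ℤ ℂ :=
  ⟨χ a, isIntegral_char χ a⟩

/-- `∑ k χ(k)` as an algebraic integer. -/
noncomputable def th {q : ℕ} [NeZero q] (χ : DirichletCharacter ℂ q) : integralClosure ℤ ℂ :=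
  ∑ k ∈ Finset.Ico 1 q, (k : integralClosure ℤ ℂ) * chR χ (k : ZMod q)

lemma coe_chR {q : ℕ} [NeZero q] (χ : DirichletCharacter ℂ q) (a : ZMod q) : ((chR χ a : integralClosure ℤ ℂ) : ℂ) = χ a :=
  rfl

lemma coe_natR (n : ℕ) : (((n : integralClosure ℤ ℂ)) : ℂ) = n := by simp

lemma coe_th {q : ℕ} [NeZero q] (χ : DirichletCharacter ℂ q) :
    ((th χ : integralClosure ℤ ℂ) : ℂ) = ∑ k ∈ Finset.Ico 1 q, (k : ℂ) * χ (k : ZMod q) := by
  rw [th]
  push_cast
  simp [coe_chR]

lemma chR_mul {q : ℕ} [NeZero q] (χ : DirichletCharacter ℂ q) (a b : ZMod q) :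
    chR χ (a * b) = chR χ a * chR χ b := by
  apply Subtype.ext
  show χ (a * b) = χ a * χ b
  exact map_mul _ _ _

/-- Fourier inversion. -/
lemma inversion {q : ℕ} [NeZero q] (hq : q.Prime) (c : ZMod q) (hc : c ≠ 0) :
    ((q - 1 : ℕ) : integralClosure ℤ ℂ) * ((c.val : ℕ) : integralClosure ℤ ℂ) =
      ∑ χ : DirichletCharacter ℂ q, chR χ c⁻¹ * th χ := by
  have := Fact.mk hq
  apply Subtype.ext
  have e : ((∑ χ : DirichletCharacter ℂ q, chR χ c⁻¹ * th χ : integralClosure ℤ ℂ) : ℂ) =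
      ∑ χ : DirichletCharacter ℂ q, χ c⁻¹ * ∑ k ∈ Finset.Ico 1 q, (k : ℂ) * χ (k : ZMod q) := by
    push_cast
    refine Finset.sum_congr rfl fun χ _ => ?_
    rw [coe_th, coe_chR]
  rw [e]
  have e2 : ((((q - 1 : ℕ) : integralClosure ℤ ℂ) * ((c.val : ℕ) : integralClosure ℤ ℂ) : integralClosure ℤ ℂ) : ℂ) =
      ((q - 1 : ℕ) : ℂ) * (c.val : ℂ) := by
    push_cast
    simp
  rw [e2]
  simp_rw [Finset.mul_sum]
  rw [Finset.sum_comm]
  have h1 : ∀ k ∈ Finset.Ico 1 q, ∑ χ : DirichletCharacter ℂ q, χ c⁻¹ * ((k : ℂ) * χ (k : ZMod q)) =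
      (k : ℂ) * (if c = (k : ZMod q) then ((q - 1 : ℕ) : ℂ) else 0) := by
    intro k _
    have h2 := DirichletCharacter.sum_char_inv_mul_char_eq ℂ (IsUnit.mk0 c hc) (k : ZMod q)
    rw [Nat.totient_prime hq] at h2
    rw [← h2, Finset.mul_sum]
    refine Finset.sum_congr rfl fun χ _ => by ring
  rw [Finset.sum_congr rfl h1, Finset.sum_eq_single c.val]
  · rw [ZMod.natCast_zmod_val, if_pos rfl]; ring
  · intro k hk hne
    rw [if_neg, mul_zero]
    intro h
    apply hne
    rw [h, ZMod.val_natCast, Nat.mod_eq_of_lt (Finset.mem_Ico.1 hk).2]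
  · intro h
    exfalso
    apply h
    rw [Finset.mem_Ico]
    exact ⟨Nat.pos_of_ne_zero (fun h0 => hc ((ZMod.val_eq_zero c).1 h0)), ZMod.val_lt c⟩

/-- Even characters other than the trivial one contribute nothing. -/
lemma th_even {q : ℕ} [NeZero q] (hq : q.Prime) (χ : DirichletCharacter ℂ q) (h1 : χ ≠ 1) (he : χ (-1) = 1) :
    th χ = 0 := by
  have := Fact.mk hq
  apply Subtype.ext
  rw [coe_th]
  show _ = (0 : ℂ)
  have e1 : ∑ k ∈ Finset.Ico 1 q, (k : ℂ) * χ (k : ZMod q) = ∑ a : ZMod q, (a.val : ℂ) * χ a := by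
    symm
    refine Finset.sum_bij_ne_zero (fun a _ _ => a.val) ?_ ?_ ?_ ?_
    · intro a _ hne
      rw [Finset.mem_Ico]
      refine ⟨Nat.pos_of_ne_zero fun h0 => hne ?_, ZMod.val_lt a⟩
      rw [h0]; simp
    · intro a _ _ b _ _ hab
      exact ZMod.val_injective q hab
    · intro k hk hne
      have hkq := (Finset.mem_Ico.1 hk).2
      refine ⟨(k : ZMod q), Finset.mem_univ _, ?_, ?_⟩
      · rw [ZMod.val_natCast, Nat.mod_eq_of_lt hkq]; exact hne
      · rw [ZMod.val_natCast, Nat.mod_eq_of_lt hkq]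
    · intro a _ _
      rw [ZMod.natCast_zmod_val]
  rw [e1]
  have hsum : ∑ a : ZMod q, χ a = 0 := MulChar.sum_eq_zero_of_ne_one h1
  have e2 : ∑ a : ZMod q, (a.val : ℂ) * χ a = ∑ a : ZMod q, ((-a).val : ℂ) * χ (-a) :=
    (Equiv.sum_comp (Equiv.neg (ZMod q)) (fun a => (a.val : ℂ) * χ a)).symm
  have e3 : ∀ a : ZMod q, (a.val : ℂ) * χ a + ((-a).val : ℂ) * χ (-a) = (q : ℂ) * χ a := by
    intro a
    have h2 : χ (-a) = χ a := by
      rw [neg_eq_neg_one_mul, map_mul, he, one_mul]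
    rw [h2]
    rcases eq_or_ne a 0 with h0 | h0
    · rw [h0]
      have : χ 0 = 0 := MulChar.map_zero χ
      simp [this]
    · have : NeZero a := ⟨h0⟩
      have h3 : a.val + (-a).val = q := by
        rw [ZMod.val_neg_of_ne_zero]
        have := (ZMod.val_lt a).le
        omega
      have h4 : ((a.val : ℂ)) + ((-a).val : ℂ) = q := by exact_mod_cast h3
      rw [← add_mul, h4]
  have e4 : 2 * ∑ a : ZMod q, (a.val : ℂ) * χ a = 0 := by
    calc 2 * ∑ a : ZMod q, (a.val : ℂ) * χ a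
        = ∑ a : ZMod q, (a.val : ℂ) * χ a + ∑ a : ZMod q, ((-a).val : ℂ) * χ (-a) := by rw [← e2]; ring
      _ = ∑ a : ZMod q, (q : ℂ) * χ a := by
          rw [← Finset.sum_add_distrib]
          exact Finset.sum_congr rfl fun a _ => e3 a
      _ = 0 := by rw [← Finset.mul_sum, hsum, mul_zero]
  rcases mul_eq_zero.1 e4 with h | h
  · norm_num at h
  · exact h

lemma natR_not_mem {P : Ideal (integralClosure ℤ ℂ)} (hP : P.IsMaximal) {p n : ℕ} (hp : p.Prime)
    (hpP : (p : integralClosure ℤ ℂ) ∈ P) (hn : ¬ p ∣ n) : (n : integralClosure ℤ ℂ) ∉ P := by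
  intro h
  have hc : Nat.Coprime p n := (Nat.Prime.coprime_iff_not_dvd hp).2 hn
  have h1 : IsCoprime (p : ℤ) (n : ℤ) := Nat.isCoprime_iff_coprime.2 hc
  obtain ⟨a, b, hab⟩ := h1
  apply hP.ne_top
  rw [Ideal.eq_top_iff_one]
  have : (1 : integralClosure ℤ ℂ) = (a : integralClosure ℤ ℂ) * (p : integralClosure ℤ ℂ) +
      (b : integralClosure ℤ ℂ) * (n : integralClosure ℤ ℂ) := by
    have h2 : ((a * p + b * n : ℤ) : integralClosure ℤ ℂ) = ((1 : ℤ) : integralClosure ℤ ℂ) := by rw [hab]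
    push_cast at h2
    exact h2.symm
  rw [this]
  exact P.add_mem (P.mul_mem_left _ hpP) (P.mul_mem_left _ h)

/-- Nonvanishing modulo `P` of `∑ k χ(k)` for odd `χ` makes `L(χ, 0)` a unit. -/
lemma card_th {p q : ℕ} [NeZero q] (hp : p.Prime) (hq : q.Prime) (hpq : p ≠ q) (P : Ideal (integralClosure ℤ ℂ))
    (hP : P.IsMaximal) (hpP : (p : integralClosure ℤ ℂ) ∈ P) :
    {χ : DirichletCharacter ℂ q | th χ ∉ P}.ncard ≤ unitCount q P + 1 := by
  have := Fact.mk hq
  have hqP : (q : integralClosure ℤ ℂ) ∉ P :=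
    natR_not_mem hP hp hpP (fun h => hpq ((Nat.prime_dvd_prime_iff_eq hp hq).1 h))
  have hq0 : (q : ℂ) ≠ 0 := by exact_mod_cast hq.ne_zero
  refine (Set.ncard_le_ncard (t := insert 1 {χ : DirichletCharacter ℂ q |
      χ (-1 : ZMod q) = -1 ∧
      ∃ a b : integralClosure ℤ ℂ, a ∉ P ∧ b ∉ P ∧
        (b : ℂ) * (-(1 / (q : ℂ)) *
          ∑ k ∈ Finset.Ico 1 q, (k : ℂ) * χ (k : ZMod q)) = (a : ℂ)}) ?_ (Set.toFinite _)).trans
    (Set.ncard_insert_le _ _)
  intro χ hχ
  rw [Set.mem_insert_iff]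
  by_cases h1 : χ = 1
  · exact Or.inl h1
  · refine Or.inr ?_
    have hodd : χ (-1) = -1 := by
      rcases DirichletCharacter.even_or_odd χ with h | h
      · exfalso
        apply hχ
        rw [th_even hq χ h1 h]
        exact P.zero_mem
      · exact h
    refine ⟨hodd, -th χ, (q : integralClosure ℤ ℂ), fun h => hχ ?_, hqP, ?_⟩
    · exact (neg_mem_iff).1 h
    · rw [← coe_th, coe_natR]
      push_cast
      field_simp

/-- The multiplication table modulo `q` lies in the span of the characters with nonvanishing `∑ k χ(k)`. -/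
lemma card_minDen_aux {F : Type*} [Field F] (π : integralClosure ℤ ℂ →+* F) {q : ℕ} [NeZero q] (hq : q.Prime)
    (hqP : ((q : ℕ) : F) ≠ 0) (hq1P : ((q - 1 : ℕ) : F) ≠ 0)
    (S : Finset ℕ) (hS : ∀ d ∈ S, MinDen q d ∧ d < q) :
    S.card ≤ {χ : DirichletCharacter ℂ q | π (th χ) ≠ 0}.ncard := by
  classical
  have := Fact.mk hq
  let e : DirichletCharacter ℂ q → (ZMod q → F) := fun χ a => π (chR χ a⁻¹)
  let T : Finset (DirichletCharacter ℂ q) := Finset.univ.filter (fun χ => π (th χ) ≠ 0)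
  let U : Submodule F (ZMod q → F) := Submodule.span F ((T.image e : Finset (ZMod q → F)) : Set (ZMod q → F))
  let f : ZMod q → (ZMod q → F) := fun b a => (((a * b).val : ℕ) : F)
  have hf : ∀ b : ZMod q, b ≠ 0 → f b ∈ U := by
    intro b hb
    have h1 : f b = ∑ χ : DirichletCharacter ℂ q,
        ((((q - 1 : ℕ) : F))⁻¹ * (π (chR χ b⁻¹) * π (th χ))) • e χ := by
      funext a
      rw [Finset.sum_apply]
      show (((a * b).val : ℕ) : F) = _
      rcases eq_or_ne a 0 with ha | ha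
      · rw [ha, zero_mul, ZMod.val_zero, Nat.cast_zero]
        symm
        apply Finset.sum_eq_zero
        intro χ _
        have h0 : e χ 0 = 0 := by
          show π (chR χ (0 : ZMod q)⁻¹) = 0
          have : chR χ (0 : ZMod q)⁻¹ = 0 := by
            apply Subtype.ext
            show χ (0 : ZMod q)⁻¹ = 0
            rw [inv_zero]
            exact MulChar.map_zero χ
          rw [this, map_zero]
        rw [Pi.smul_apply, h0, smul_zero]
      · have h2 := congrArg π (inversion hq (a * b) (mul_ne_zero ha hb))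
        rw [map_mul, map_sum, map_natCast, map_natCast] at h2
        have h3 : (((a * b).val : ℕ) : F) = (((q - 1 : ℕ) : F))⁻¹ *
            ∑ χ : DirichletCharacter ℂ q, π (chR χ (a * b)⁻¹ * th χ) := by
          rw [← h2, ← mul_assoc, inv_mul_cancel₀ hq1P, one_mul]
        rw [h3, Finset.mul_sum]
        refine Finset.sum_congr rfl fun χ _ => ?_
        rw [Pi.smul_apply, smul_eq_mul]
        show _ = _ * π (chR χ a⁻¹)
        rw [mul_inv, chR_mul, map_mul, map_mul]
        ring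
    rw [h1]
    refine Submodule.sum_mem _ fun χ _ => ?_
    by_cases hχ : π (th χ) = 0
    · rw [hχ, mul_zero, mul_zero, zero_smul]
      exact Submodule.zero_mem _
    · refine Submodule.smul_mem _ _ (Submodule.subset_span ?_)
      rw [Finset.mem_coe]
      exact Finset.mem_image_of_mem e (Finset.mem_filter.2 ⟨Finset.mem_univ _, hχ⟩)
  -- the vectors of the minimal denominators
  have hx : ∀ d : S, ∃ x : ℕ, 1 ≤ x ∧ x + 1 < q ∧ ((d : ℕ) * (x + 1)) / q = ((d : ℕ) * x) / q + 1 ∧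
    ∀ a : ℕ, 0 < a → a < (d : ℕ) → (a * (x + 1)) / q = (a * x) / q := fun d => (hS d d.2).1
  choose x hx1 hx2 hx3 hx4 using hx
  let g : S → (ZMod q → F) := fun d => f 1 - (f ((x d + 1 : ℕ) : ZMod q) - f ((x d : ℕ) : ZMod q))
  have hcast0 : ∀ n : ℕ, 0 < n → n < q → ((n : ℕ) : ZMod q) ≠ 0 := by
    intro n h0 hn h
    rw [ZMod.natCast_eq_zero_iff] at h
    exact absurd (Nat.le_of_dvd h0 h) (by omega)
  have hgU : ∀ d, g d ∈ U := fun d => U.sub_mem (hf 1 one_ne_zero)
    (U.sub_mem (hf _ (hcast0 _ (by omega) (hx2 d))) (hf _ (hcast0 _ (by have := hx1 d; omega) (by have := hx2 d; omega))))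
  have hg : ∀ (d : S) (a : ℕ), a < q → g d (a : ZMod q) =
      (q : F) * (((a * (x d + 1)) / q : ℕ) - ((a * x d) / q : ℕ) : F) := by
    intro d a ha
    have hv : ∀ b : ℕ, f (b : ZMod q) (a : ZMod q) = ((a * b : ℕ) : F) - (q : F) * (((a * b) / q : ℕ) : F) := by
      intro b
      show ((((a : ZMod q) * (b : ZMod q)).val : ℕ) : F) = _
      rw [← Nat.cast_mul, ZMod.val_natCast]
      have h5 := Nat.div_add_mod (a * b) q
      have h6 : (((q * ((a * b) / q) + (a * b) % q : ℕ)) : F) = ((a * b : ℕ) : F) := by rw [h5]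
      rw [← h6, Nat.cast_add, Nat.cast_mul q]
      ring
    have e1 : f 1 (a : ZMod q) = (a : F) := by
      have := hv 1
      rw [Nat.cast_one, mul_one, Nat.div_eq_of_lt ha, Nat.cast_zero, mul_zero, sub_zero] at this
      exact this
    show f 1 (a : ZMod q) - (f ((x d + 1 : ℕ) : ZMod q) (a : ZMod q) - f ((x d : ℕ) : ZMod q) (a : ZMod q)) = _
    rw [e1, hv, hv, Nat.cast_mul a (x d + 1), Nat.cast_mul a (x d), Nat.cast_add (x d) 1, Nat.cast_one]
    ring
  have hli : LinearIndependent F g := by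
    rw [linearIndependent_iff']
    intro s c hs
    have key : ∀ n : ℕ, ∀ d : S, (d : ℕ) = n → d ∈ s → c d = 0 := by
      intro n
      induction n using Nat.strong_induction_on with
      | _ n ih =>
        intro d hd hds
        have hdq : (d : ℕ) < q := (hS d d.2).2
        have h1 := congrFun hs ((d : ℕ) : ZMod q)
        rw [Finset.sum_apply, Finset.sum_eq_single d] at h1
        · rw [Pi.smul_apply, hg d d hdq, hx3 d] at h1
          push_cast at h1
          rw [add_sub_cancel_left, mul_one, smul_eq_mul] at h1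
          exact (mul_eq_zero.1 h1).resolve_right hqP
        · intro d' hd's hne
          rw [Pi.smul_apply]
          rcases lt_trichotomy (d' : ℕ) (d : ℕ) with h | h | h
          · rw [ih d' (hd ▸ h) d' rfl hd's, zero_smul]
          · exact absurd (Subtype.ext h) hne
          · have hd0 : 0 < (d : ℕ) := by
              rcases Nat.eq_zero_or_pos (d : ℕ) with h0 | h0
              · have := hx3 d
                rw [h0] at this; simp at this
              · exact h0
            rw [hg d' d hdq, hx4 d' d hd0 h, sub_self, mul_zero, smul_zero]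
        · intro h
          exact absurd hds h
    intro d hd
    exact key _ d rfl hd
  have hcard := linearIndependent_le_span' g hli ((T.image e : Finset (ZMod q → F)) : Set (ZMod q → F))
    (by rintro _ ⟨d, rfl⟩; exact hgU d)
  rw [Cardinal.mk_fintype, Nat.cast_le, Fintype.card_coe] at hcard
  have h8 : Fintype.card ((T.image e : Finset (ZMod q → F)) : Set (ZMod q → F)) = (T.image e).card := by
    simp only [Finset.coe_sort_coe, Fintype.card_coe]
  rw [h8] at hcard
  refine hcard.trans (Finset.card_image_le.trans (le_of_eq ?_))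
  rw [← Set.ncard_coe_finset]
  congr 1
  ext χ
  simp [T]

theorem card_minDen {p q : ℕ} (hp : p.Prime) (hq : q.Prime) (hpq : p ≠ q) (hpq1 : ¬ p ∣ q - 1)
    (P : Ideal (integralClosure ℤ ℂ)) (hP : P.IsMaximal) (hpP : (p : integralClosure ℤ ℂ) ∈ P)
    (S : Finset ℕ) (hS : ∀ d ∈ S, MinDen q d ∧ d < q) : S.card ≤ unitCount q P + 1 := by
  have : NeZero q := ⟨hq.ne_zero⟩
  refine le_trans ?_ (card_th hp hq hpq P hP hpP)
  have hπ0 : ∀ z, Ideal.Quotient.mk P z = 0 ↔ z ∈ P := fun z => Ideal.Quotient.eq_zero_iff_mem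
  have hqP : ((q : ℕ) : integralClosure ℤ ℂ ⧸ P) ≠ 0 := by
    rw [← map_natCast (Ideal.Quotient.mk P), Ne, hπ0]
    exact natR_not_mem hP hp hpP (fun h => hpq ((Nat.prime_dvd_prime_iff_eq hp hq).1 h))
  have hq1P : ((q - 1 : ℕ) : integralClosure ℤ ℂ ⧸ P) ≠ 0 := by
    rw [← map_natCast (Ideal.Quotient.mk P), Ne, hπ0]
    exact natR_not_mem hP hp hpP hpq1
  have h := @card_minDen_aux (integralClosure ℤ ℂ ⧸ P) (Ideal.Quotient.field P) (Ideal.Quotient.mk P) q _ hq hqP hq1P S hS
  refine h.trans (le_of_eq ?_)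
  congr 1
  ext χ
  exact not_congr (hπ0 (th χ))

end Pool.Agent.L5helper14.UnitL
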